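import Pool.Agent.H10.LDV.Stmts

/-!
# LDV: CHS, the choice lemma with slack
-/

set_option autoImplicit false

namespace Pool.LDV

open Finset Pool.Agent.H98.ABCR Pool.SHA Pool.BL

namespace CHS31

theorem phi_mul (c x g : ℝ) (hc : 0 ≤ c) : Phi3 (c * x) (c * g) = c * Phi3 x g := by
  unfold Phi3
  rw [mul_max_of_nonneg _ _ hc, mul_max_of_nonneg _ _ hc]
  congr 2 <;> ring

theorem phi_add (x g y : ℝ) (hy : 0 ≤ y) : Phi3 x g ≤ Phi3 x (g + y) + y := by
  unfold Phi3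
  refine max_le ?_ (max_le ?_ ?_)
  · have := le_max_left x (max ((5 * x - (g + y)) / 3) (2 * x - (g + y)))
    linarith
  · have h1 := le_max_right x (max ((5 * x - (g + y)) / 3) (2 * x - (g + y)))
    have h2 := le_max_left ((5 * x - (g + y)) / 3) (2 * x - (g + y))
    linarith
  · have h1 := le_max_right x (max ((5 * x - (g + y)) / 3) (2 * x - (g + y)))
    have h2 := le_max_right ((5 * x - (g + y)) / 3) (2 * x - (g + y))
    linarith

theorem max_add (u g y : ℝ) (hy : 0 ≤ y) : max 0 (u - g) ≤ max 0 (u - (g + y)) + y := by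
  refine max_le ?_ ?_
  · have := le_max_left 0 (u - (g + y))
    linarith
  · have := le_max_right 0 (u - (g + y))
    linarith

theorem min_add (u g y : ℝ) (hy : 0 ≤ y) : min u (g + y) ≤ min u g + y := by
  rcases le_total u g with h | h
  · rw [min_eq_left h]
    have := min_le_left u (g + y)
    linarith
  · rw [min_eq_right h]
    exact min_le_right u (g + y)

theorem alt_mono {J : ℕ} {T T' m : ℝ} {p : Fin 3 → ℕ → ℝ} {t : Fin 3 → ℝ} {a : Fin 3}
    (hT : T ≤ T') (h : Alt J T m p t a) : Alt J T' m p t a := by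
  rcases h with ⟨j, k, hjk, hle⟩ | ⟨i, j, k, e, f, h1, h2, h3, h4, h5, hle⟩ |
    ⟨i, j, k, K, h1, h2, h3, h4, hle⟩ | ⟨i, j, k, K, e, h1, h2, h3, h4, h5, hle⟩ |
    ⟨k, l, e, h1, h2, h3, h4, hle⟩
  · exact Or.inl ⟨j, k, hjk, hle.trans hT⟩
  · exact Or.inr (Or.inl ⟨i, j, k, e, f, h1, h2, h3, h4, h5, hle.trans hT⟩)
  · exact Or.inr (Or.inr (Or.inl ⟨i, j, k, K, h1, h2, h3, h4, hle.trans hT⟩))
  · exact Or.inr (Or.inr (Or.inr (Or.inl ⟨i, j, k, K, e, h1, h2, h3, h4, h5, hle.trans hT⟩)))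
  · exact Or.inr (Or.inr (Or.inr (Or.inr ⟨k, l, e, h1, h2, h3, h4, hle.trans hT⟩)))

end CHS31

open CHS31

theorem chs_thm (h1 : S_CHM) (h2 : S_CHL) : S_CHS := by
  intro J κ m η p t a hJ hκ hm hmκ hη hη' hp ht hsum hG hGa
  obtain ⟨r, hr⟩ : ∃ r : ℝ, r = (1 + η)⁻¹ := ⟨_, rfl⟩
  have h1η : (0 : ℝ) < 1 + η := by linarith
  have hr0 : 0 ≤ r := by rw [hr]; positivity
  have hr1 : (1 + η) * r = 1 := by rw [hr]; exact mul_inv_cancel₀ h1η.ne'
  have hrle : r ≤ 1 := by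
    have : r * 1 ≤ (1 + η) * r := by nlinarith
    linarith
  obtain ⟨m', hm'⟩ : ∃ m' : ℝ, m' = max m (r * (m + η)) := ⟨_, rfl⟩
  have hmm : m ≤ m' := by rw [hm']; exact le_max_left _ _
  have hm1 : r * (m + η) ≤ m' := by rw [hm']; exact le_max_right _ _
  have hm2 : m' ≤ m + η := by
    rw [hm']
    refine max_le (by linarith) ?_
    calc r * (m + η) ≤ 1 * (m + η) := mul_le_mul_of_nonneg_right hrle (by linarith)
      _ = m + η := one_mul _
  have hm3 : m + η ≤ (1 + η) * m' := by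
    have h3 := mul_le_mul_of_nonneg_left hm1 h1η.le
    rw [← mul_assoc, hr1, one_mul] at h3
    exact h3
  obtain ⟨w, hw⟩ : ∃ w : ℝ, w = (1 + η) * m' - m := ⟨_, rfl⟩
  have hw0 : 0 ≤ w := by linarith
  have hw1 : w ≤ (κ + 2) * η := by
    have h4 : (1 + η) * m' ≤ (1 + η) * (m + η) := mul_le_mul_of_nonneg_left hm2 h1η.le
    have h5 : η * m ≤ η * κ := mul_le_mul_of_nonneg_left hmκ hη
    have h6 : η * η ≤ η * 1 := mul_le_mul_of_nonneg_left (by linarith) hη
    rw [hw]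
    nlinarith
  obtain ⟨z, hz⟩ : ∃ z : Fin 3 → ℝ, z = fun i => if i = a then 0 else
    (1 + η) * m' - (t i + ∑ e ∈ Icc 1 J, (e : ℝ) * p i e) := ⟨_, rfl⟩
  have hza : z a = 0 := by rw [hz]; simp
  have hzi : ∀ i, i ≠ a → z i = (1 + η) * m' - (t i + ∑ e ∈ Icc 1 J, (e : ℝ) * p i e) := by
    intro i hi
    rw [hz]
    simp [hi]
  have hz0 : ∀ i, 0 ≤ z i := by
    intro i
    by_cases hi : i = a
    · rw [hi, hza]
    · rw [hzi i hi]
      have := (hG i hi).2
      linarith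
  have hz1 : ∀ i, z i ≤ (κ + 3) * η := by
    intro i
    by_cases hi : i = a
    · rw [hi, hza]
      positivity
    · rw [hzi i hi]
      have := (hG i hi).1
      nlinarith
  have hS : ∀ (K : Finset ℕ) (l : Fin 3), ∑ e ∈ K, r * p l e = r * ∑ e ∈ K, p l e :=
    fun K l => (Finset.mul_sum _ _ _).symm
  have hGs : ∀ (K : Finset ℕ) (l : Fin 3), ∑ e ∈ K, (e : ℝ) * (r * p l e) =
      r * ∑ e ∈ K, (e : ℝ) * p l e := by
    intro K l
    rw [Finset.mul_sum]
    exact Finset.sum_congr rfl fun e _ => by ring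
  obtain ⟨T, hT⟩ : ∃ T : ℝ, T = max (1 - m) (3 / 5) := ⟨_, rfl⟩
  have hT1 : 1 - m ≤ T := by rw [hT]; exact le_max_left _ _
  have hT2 : (3 : ℝ) / 5 ≤ T := by rw [hT]; exact le_max_right _ _
  have hT3 : T ≤ 2 / 3 := by rw [hT]; exact max_le (by linarith) (by norm_num)
  have hp' : ∀ l e, 0 ≤ r * p l e := fun l e => mul_nonneg hr0 (hp l e)
  have ht' : ∀ l, 0 ≤ r * (t l + z l) := fun l => mul_nonneg hr0 (add_nonneg (ht l) (hz0 l))
  have hsum' : ∑ l, ∑ e ∈ Icc 1 J, r * p l e ≤ 1 := by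
    calc ∑ l, ∑ e ∈ Icc 1 J, r * p l e = r * ∑ l, ∑ e ∈ Icc 1 J, p l e := by
          rw [Finset.mul_sum]
          exact Finset.sum_congr rfl fun l _ => (Finset.mul_sum _ _ _).symm
      _ ≤ r * (1 + η) := mul_le_mul_of_nonneg_left hsum hr0
      _ = 1 := by rw [mul_comm]; exact hr1
  have hG' : ∀ i, i ≠ a → r * (t i + z i) + ∑ e ∈ Icc 1 J, (e : ℝ) * (r * p i e) = m' := by
    intro i hi
    rw [hGs, hzi i hi]
    calc r * (t i + ((1 + η) * m' - (t i + ∑ e ∈ Icc 1 J, (e : ℝ) * p i e))) +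
          r * ∑ e ∈ Icc 1 J, (e : ℝ) * p i e = (1 + η) * r * m' := by ring
      _ = m' := by rw [hr1, one_mul]
  have hGa' : r * (t a + z a) + ∑ e ∈ Icc 1 J, (e : ℝ) * (r * p a e) ≤ m' := by
    rw [hGs, hza, add_zero, ← mul_add]
    exact (mul_le_mul_of_nonneg_left hGa hr0).trans hm1
  have key : Alt J T m' (fun l e => r * p l e) (fun l => r * (t l + z l)) a := by
    rcases le_total m (2 / 5) with h | h
    · refine alt_mono (T := 1 - m') (by linarith) ?_
      exact h2 J m' (fun l e => r * p l e) (fun l => r * (t l + z l)) a hJ (by linarith)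
        (by linarith) hp' ht' hsum' hG' hGa'
    · refine alt_mono (T := 3 / 5) hT2 ?_
      exact h1 J m' (fun l e => r * p l e) (fun l => r * (t l + z l)) a hJ (by linarith)
        hp' ht' hsum' hG' hGa'
  rw [← hT]
  have hmul : ∀ A : ℝ, r * A ≤ T → A ≤ T + 2 / 3 * η := by
    intro A hA
    have h3 := mul_le_mul_of_nonneg_left hA h1η.le
    rw [← mul_assoc, hr1, one_mul] at h3
    have h4 : η * T ≤ η * (2 / 3) := mul_le_mul_of_nonneg_left hT3 hη
    linarith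
  have hκη : η ≤ κ * η := by
    have := mul_le_mul_of_nonneg_right hκ hη
    linarith
  rcases key with ⟨j, k, hjk, hle⟩ | ⟨i, j, k, e, f, g1, g2, g3, g4, g5, hle⟩ |
    ⟨i, j, k, K, g1, g2, g3, g4, hle⟩ | ⟨i, j, k, K, e, g1, g2, g3, g4, g5, hle⟩ |
    ⟨k, l, e, g1, g2, g3, g4, hle⟩
  · left
    refine ⟨j, k, hjk, ?_⟩
    simp only [hS] at hle
    have := hmul _ (by rw [mul_add]; exact hle)
    linarith
  · right; left
    refine ⟨i, j, k, e, f, g1, g2, g3, g4, g5, ?_⟩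
    simp only [hS] at hle
    have := hmul ((∑ e ∈ Icc 1 J, p i e) / 2 +
      (∑ e ∈ Icc 1 J, p j e - p j e / 2) + (∑ e ∈ Icc 1 J, p k e - p k f / 2)) (by
        refine le_trans (le_of_eq ?_) hle
        ring)
    linarith
  · right; right; left
    refine ⟨i, j, k, K, g1, g2, g3, g4, ?_⟩
    simp only [hS, hGs] at hle
    have hg : r * (t i + z i) + r * ∑ e ∈ K, (e : ℝ) * p i e =
        r * ((t i + ∑ e ∈ K, (e : ℝ) * p i e) + z i) := by ring
    rw [hg, phi_mul _ _ _ hr0, phi_mul _ _ _ hr0] at hle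
    have h4 := hmul (∑ e ∈ K, p i e + (Phi3 (∑ e ∈ Icc 1 J, p j e)
      ((t i + ∑ e ∈ K, (e : ℝ) * p i e) + z i) + Phi3 (∑ e ∈ Icc 1 J, p k e)
      ((t i + ∑ e ∈ K, (e : ℝ) * p i e) + z i)) / 2) (by
        refine le_trans (le_of_eq ?_) hle
        ring)
    have h5 := phi_add (∑ e ∈ Icc 1 J, p j e) (t i + ∑ e ∈ K, (e : ℝ) * p i e) (z i) (hz0 i)
    have h6 := phi_add (∑ e ∈ Icc 1 J, p k e) (t i + ∑ e ∈ K, (e : ℝ) * p i e) (z i) (hz0 i)
    have h7 := hz1 i
    linarith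
  · right; right; right; left
    refine ⟨i, j, k, K, e, g1, g2, g3, g4, g5, ?_⟩
    simp only [hS, hGs] at hle
    have hg : r * p j e + r * p k e - (r * (t i + z i) + r * ∑ n ∈ K, (n : ℝ) * p i n) =
        r * (p j e + p k e - ((t i + ∑ n ∈ K, (n : ℝ) * p i n) + z i)) := by ring
    have hmx : ∀ u : ℝ, max 0 (r * u) = r * max 0 u := by
      intro u
      rw [mul_max_of_nonneg _ _ hr0, mul_zero]
    rw [hg, hmx] at hle
    have h4 := hmul (∑ n ∈ K, p i n + (∑ n ∈ Icc 1 J, p j n - p j e) +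
      (∑ n ∈ Icc 1 J, p k n - p k e) +
      max 0 (p j e + p k e - ((t i + ∑ n ∈ K, (n : ℝ) * p i n) + z i))) (by
        refine le_trans (le_of_eq ?_) hle
        ring)
    have h5 := max_add (p j e + p k e) (t i + ∑ n ∈ K, (n : ℝ) * p i n) (z i) (hz0 i)
    have h7 := hz1 i
    linarith
  · right; right; right; right
    refine ⟨k, l, e, g1, g2, g3, g4, ?_⟩
    simp only [hS, hGs] at hle
    rw [hza, add_zero] at hle
    have hg : m' - (r * t a + r * ∑ n ∈ Icc 1 J, (n : ℝ) * p a n) =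
        r * ((m - (t a + ∑ n ∈ Icc 1 J, (n : ℝ) * p a n)) + w) := by
      have h8 : r * w = m' - r * m := by
        rw [hw]
        calc r * ((1 + η) * m' - m) = (1 + η) * r * m' - r * m := by ring
          _ = m' - r * m := by rw [hr1, one_mul]
      rw [mul_add, h8]
      ring
    have hmn : ∀ u v : ℝ, min (r * u) (r * v) = r * min u v := by
      intro u v
      rw [mul_min_of_nonneg _ _ hr0]
    rw [hg, hmn] at hle
    have h4 := hmul (∑ n ∈ Icc 1 J, p k n + ∑ n ∈ Icc 1 J, p l n -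
      min (p l e) ((m - (t a + ∑ n ∈ Icc 1 J, (n : ℝ) * p a n)) + w)) (by
        refine le_trans (le_of_eq ?_) hle
        ring)
    have h5 := min_add (p l e) (m - (t a + ∑ n ∈ Icc 1 J, (n : ℝ) * p a n)) w hw0
    linarith

end Pool.LDV
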